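import Pool.Agent.Helper50.Ram5.U2a

set_option autoImplicit false

/-!
# Strip unfolding, hyperbolic 5-space
-/

namespace Pool.Agent.Helper50.Ram5

open MeasureTheory Topology
open scoped Quaternion
open Pool.Agent.Helper10.Ram5 hiding trans

/-- units of `R` (as quaternions of norm one) -/
def UE (R : Subring ℍ[ℝ]) : Set ℍ[ℝ] :=
  {e | e ∈ R ∧ ‖e‖ = 1 ∧ ∃ e' ∈ R, e * e' = 1 ∧ e' * e = 1}

theorem finite_UE {R : Subring ℍ[ℝ]} (hR : NiceRing R) : (UE R).Finite :=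
  (hR.fin 1).subset fun _ he => ⟨he.1, he.2.1.le⟩

theorem one_mem_UE (R : Subring ℍ[ℝ]) : (1 : ℍ[ℝ]) ∈ UE R :=
  ⟨R.one_mem, norm_one, 1, R.one_mem, one_mul 1, one_mul 1⟩

/-- upper triangular matrices -/
noncomputable def ut (e e' x : ℍ[ℝ]) (h1 : e * e' = 1) (h2 : e' * e = 1) : GL2H :=
  ⟨!![e, x; 0, 1], !![e', -(e' * x); 0, 1],
    Matrix.ext fun i j => by
      fin_cases i <;> fin_cases j <;>
        simp [Matrix.mul_apply, Fin.sum_univ_two, h1, ← mul_assoc],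
    Matrix.ext fun i j => by
      fin_cases i <;> fin_cases j <;>
        simp [Matrix.mul_apply, Fin.sum_univ_two, h2]⟩

theorem ut_mem {R : Subring ℍ[ℝ]} {e e' x : ℍ[ℝ]} (he : e ∈ R) (he' : e' ∈ R) (hx : x ∈ R)
    (h1 : e * e' = 1) (h2 : e' * e = 1) : ut e e' x h1 h2 ∈ Gam R := by
  rw [mem_Gam]
  constructor
  · intro i j
    fin_cases i <;> fin_cases j
    · exact he
    · exact hx
    · exact R.zero_mem
    · exact R.one_mem
  · intro i j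
    fin_cases i <;> fin_cases j
    · exact he'
    · exact R.neg_mem (R.mul_mem he' hx)
    · exact R.zero_mem
    · exact R.one_mem

theorem coe_mul' (g h : GL2H) (i j : Fin 2) :
    (g * h).1 i j = g.1 i 0 * h.1 0 j + g.1 i 1 * h.1 1 j := by
  rw [Units.val_mul, Matrix.mul_apply, Fin.sum_univ_two]

theorem act_of_row {g : GL2H} (h0 : g.1 1 0 = 0) (h1 : g.1 1 1 = 1) (p : Pt) :
    act g p = (g.1 0 0 * p.1 + g.1 0 1, p.2) := by
  have hd : den g p = 1 := by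
    unfold den
    rw [h0, h1]
    simp
  unfold act
  rw [hd, h0, h1]
  simp

/-- two matrices with the same bottom row -/
theorem row_div {R : Subring ℍ[ℝ]} (hR : NiceRing R) {g h : GL2H} (hg : g ∈ Gam R)
    (hh : h ∈ Gam R) (h0 : h.1 1 0 = g.1 1 0) (h1 : h.1 1 1 = g.1 1 1) :
    (h * g⁻¹).1 1 0 = 0 ∧ (h * g⁻¹).1 1 1 = 1 ∧ (h * g⁻¹).1 0 0 ∈ UE R ∧
      (h * g⁻¹).1 0 1 ∈ R := by
  have key : ∀ g h : GL2H, h.1 1 0 = g.1 1 0 → h.1 1 1 = g.1 1 1 → ∀ j,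
      (h * g⁻¹).1 1 j = (1 : GL2H).1 1 j := by
    intro g h h0 h1 j
    rw [← mul_inv_cancel g, coe_mul', coe_mul', h0, h1]
  have hm : h * g⁻¹ ∈ Gam R := (Gam R).mul_mem hh ((Gam R).inv_mem hg)
  have hme := mem_Gam.1 hm
  have a0 : (h * g⁻¹).1 1 0 = 0 := by
    rw [key g h h0 h1]; simp
  have a1 : (h * g⁻¹).1 1 1 = 1 := by
    rw [key g h h0 h1]; simp
  have b0 : ((h * g⁻¹)⁻¹).1 1 0 = 0 := by
    rw [mul_inv_rev, inv_inv, key h g h0.symm h1.symm]; simp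
  have hnrd := hR.nrd_one _ hm
  have hnorm : ‖(h * g⁻¹).1 0 0‖ = 1 := by
    unfold nrd at hnrd
    rw [a0, a1] at hnrd
    simp only [norm_one, norm_zero, star_zero, mul_zero, zero_mul, Quaternion.re_zero] at hnrd
    have : ‖(h * g⁻¹).1 0 0‖ ^ 2 = 1 := by linarith
    have h0 := norm_nonneg ((h * g⁻¹).1 0 0)
    nlinarith
  have hl : (h * g⁻¹).1 0 0 * ((h * g⁻¹)⁻¹).1 0 0 = 1 := by
    have e : ((h * g⁻¹) * (h * g⁻¹)⁻¹).1 0 0 = (1 : GL2H).1 0 0 := by rw [mul_inv_cancel]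
    rw [coe_mul', b0, mul_zero, add_zero] at e
    rw [e]; simp
  have hr : ((h * g⁻¹)⁻¹).1 0 0 * (h * g⁻¹).1 0 0 = 1 := by
    have e : ((h * g⁻¹)⁻¹ * (h * g⁻¹)).1 0 0 = (1 : GL2H).1 0 0 := by rw [inv_mul_cancel]
    rw [coe_mul', a0, mul_zero, add_zero] at e
    rw [e]; simp
  exact ⟨a0, a1, ⟨hme.1 0 0, hnorm, _, hme.2 0 0, hl, hr⟩, hme.1 0 1⟩

/-- bottom row -/
noncomputable def row {R : Subring ℍ[ℝ]} (γ : Gam R) : Prim R :=
  ⟨((γ : GL2H).1 1 0, (γ : GL2H).1 1 1), γ, γ.2, rfl⟩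

theorem one_div_uval (g : GL2H) (p : Pt) : 1 / uval (g.1 1 0, g.1 1 1) p = (act g p).2 := by
  show 1 / ((‖g.1 1 0 * p.1 + g.1 1 1‖ ^ 2 + ‖g.1 1 0‖ ^ 2 * p.2 ^ 2) / p.2) = p.2 / den g p
  rw [one_div_div]
  rfl

open Classical in
/-- the strip function -/
noncomputable def strip (ψ : ℝ → ENNReal) : Pt → ENNReal :=
  Set.indicator (cellSet ×ˢ Set.Ioi (0 : ℝ)) (fun p => ψ p.2)

theorem measurable_strip {ψ : ℝ → ENNReal} (hψ : Measurable ψ) :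
    Measurable (strip ψ) :=
  (hψ.comp measurable_snd).indicator (measurableSet_cellSet.prod measurableSet_Ioi)

theorem row_eq {R : Subring ℍ[ℝ]} {γ γ₀ : Gam R} (h : row γ = row γ₀) :
    (γ : GL2H).1 1 0 = (γ₀ : GL2H).1 1 0 ∧ (γ : GL2H).1 1 1 = (γ₀ : GL2H).1 1 1 := by
  have e := congrArg Subtype.val h
  exact ⟨congrArg Prod.fst e, congrArg Prod.snd e⟩

/-- the unit attached to an element of the fibre -/
noncomputable def unt {R : Subring ℍ[ℝ]} (hR : NiceRing R) (γ₀ : Gam R)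
    (γ : {γ : Gam R // row γ = row γ₀}) : UE R :=
  ⟨((γ.1 : GL2H) * (γ₀ : GL2H)⁻¹).1 0 0,
    (row_div hR γ₀.2 γ.1.2 (row_eq γ.2).1 (row_eq γ.2).2).2.2.1⟩

theorem act_fibre (hA : AlgHyp) {R : Subring ℍ[ℝ]} (hR : NiceRing R) {γ₀ γ : Gam R}
    (h : row γ = row γ₀) {p : Pt} (hp : p ∈ UH) :
    act γ p = (((γ : GL2H) * (γ₀ : GL2H)⁻¹).1 0 0 * (act γ₀ p).1
      + ((γ : GL2H) * (γ₀ : GL2H)⁻¹).1 0 1, (act γ₀ p).2) := by
  obtain ⟨h0, h1⟩ := row_eq h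
  obtain ⟨a0, a1, -, -⟩ := row_div hR γ₀.2 γ.2 h0 h1
  rw [← act_of_row a0 a1, ← hA.act_mul _ _ (hR.nrd_one _ γ₀.2) hp, inv_mul_cancel_right]

theorem sum_fibre (hA : AlgHyp) {R : Subring ℍ[ℝ]} (hR : NiceRing R) (hL : IsLat R)
    (ψ : ℝ → ENNReal) {p : Pt} (hp : p ∈ UH) (γ₀ : Gam R) :
    ∑' γ : {γ : Gam R // row γ = row γ₀}, strip ψ (act γ.1 p)
      = (Nat.card (UE R) : ENNReal) * ψ (act γ₀ p).2 := by
  have hpos : (0 : ℝ) < (act γ₀ p).2 := hA.act_mem γ₀ hp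
  rw [← (Equiv.sigmaFiberEquiv (unt hR γ₀)).tsum_eq, ENNReal.tsum_sigma']
  have hone : ∀ e : UE R, ∑' γ : {γ // unt hR γ₀ γ = e},
      strip ψ (act ((Equiv.sigmaFiberEquiv (unt hR γ₀)) ⟨e, γ⟩).1 p) = ψ (act γ₀ p).2 := by
    rintro ⟨e, heR, hen, e', he'R, he1, he2⟩
    obtain ⟨x, hx, hxc⟩ := exists_mem_cell hL (e * (act γ₀ p).1)
    have hmem : ut e e' x he1 he2 * (γ₀ : GL2H) ∈ Gam R :=
      (Gam R).mul_mem (ut_mem heR he'R hx he1 he2) γ₀.2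
    let γ₁ : Gam R := ⟨ut e e' x he1 he2 * (γ₀ : GL2H), hmem⟩
    have hrow : row γ₁ = row γ₀ := by
      apply Subtype.ext
      show ((ut e e' x he1 he2 * (γ₀ : GL2H)).1 1 0, (ut e e' x he1 he2 * (γ₀ : GL2H)).1 1 1)
        = ((γ₀ : GL2H).1 1 0, (γ₀ : GL2H).1 1 1)
      rw [coe_mul', coe_mul']
      simp [ut]
    have hdiv : (γ₁ : GL2H) * (γ₀ : GL2H)⁻¹ = ut e e' x he1 he2 := mul_inv_cancel_right _ _
    have hu : unt hR γ₀ ⟨γ₁, hrow⟩ = (⟨e, heR, hen, e', he'R, he1, he2⟩ : UE R) := by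
      apply Subtype.ext
      show ((γ₁ : GL2H) * (γ₀ : GL2H)⁻¹).1 0 0 = e
      rw [hdiv]
      rfl
    rw [tsum_eq_single (⟨⟨γ₁, hrow⟩, hu⟩ :
      {γ // unt hR γ₀ γ = (⟨e, heR, hen, e', he'R, he1, he2⟩ : UE R)})]
    · show strip ψ (act γ₁ p) = _
      rw [act_fibre hA hR hrow hp, hdiv]
      unfold strip
      rw [Set.indicator_of_mem]
      exact ⟨hxc, hpos⟩
    · rintro ⟨⟨γ, hγ⟩, hγu⟩ hne
      show strip ψ (act γ p) = 0
      rw [act_fibre hA hR hγ hp]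
      obtain ⟨a0, a1, -, aR⟩ := row_div hR γ₀.2 γ.2 (row_eq hγ).1 (row_eq hγ).2
      have he : ((γ : GL2H) * (γ₀ : GL2H)⁻¹).1 0 0 = e := congrArg Subtype.val hγu
      unfold strip
      rw [Set.indicator_of_notMem]
      intro hcell
      apply hne
      apply Subtype.ext
      apply Subtype.ext
      apply Subtype.ext
      show (γ : GL2H) = ut e e' x he1 he2 * (γ₀ : GL2H)
      have hc : e * (act γ₀ p).1 + ((γ : GL2H) * (γ₀ : GL2H)⁻¹).1 0 1 ∈ cellSet := by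
        have := hcell.1
        rwa [he] at this
      have h0 : ((γ : GL2H) * (γ₀ : GL2H)⁻¹).1 0 1 - x = 0 := by
        refine cell_unique hL (R.sub_mem aR hx) hxc ?_
        have : e * (act γ₀ p).1 + x + (((γ : GL2H) * (γ₀ : GL2H)⁻¹).1 0 1 - x)
          = e * (act γ₀ p).1 + ((γ : GL2H) * (γ₀ : GL2H)⁻¹).1 0 1 := by abel
        rw [this]
        exact hc
      have h1 : ((γ : GL2H) * (γ₀ : GL2H)⁻¹).1 0 1 = x := sub_eq_zero.1 h0
      have h2 : (γ : GL2H) * (γ₀ : GL2H)⁻¹ = ut e e' x he1 he2 := by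
        refine Units.ext (Matrix.ext fun i j => ?_)
        fin_cases i <;> fin_cases j
        · exact he
        · exact h1
        · exact a0
        · exact a1
      rw [← h2, inv_mul_cancel_right]
  rw [tsum_congr hone]
  have hf := finite_UE hR
  have : Finite (UE R) := hf
  have hfin : Fintype (UE R) := Fintype.ofFinite _
  rw [tsum_fintype, Finset.sum_const, nsmul_eq_mul, Finset.card_univ, Nat.card_eq_fintype_card]

theorem sum_strip (hA : AlgHyp) {R : Subring ℍ[ℝ]} (hR : NiceRing R) (hL : IsLat R)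
    (ψ : ℝ → ENNReal) {p : Pt} (hp : p ∈ UH) :
    ∑' γ : Gam R, strip ψ (act γ p)
      = (Nat.card (UE R) : ENNReal) * ∑' v : Prim R, ψ (1 / uval v p) := by
  rw [← (Equiv.sigmaFiberEquiv (row (R := R))).tsum_eq, ENNReal.tsum_sigma',
    ← ENNReal.tsum_mul_left]
  refine tsum_congr fun v => ?_
  obtain ⟨v, γ₀, hγ₀, hv⟩ := v
  have hrow : (⟨v, γ₀, hγ₀, hv⟩ : Prim R) = row ⟨γ₀, hγ₀⟩ := Subtype.ext hv
  rw [hrow]
  have h := sum_fibre hA hR hL ψ hp ⟨γ₀, hγ₀⟩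
  have h2 : ψ (1 / uval (row (⟨γ₀, hγ₀⟩ : Gam R)).1 p) = ψ (act γ₀ p).2 := by
    show ψ (1 / uval (γ₀.1 1 0, γ₀.1 1 1) p) = _
    rw [one_div_uval]
  rw [h2]
  exact h

theorem lintegral_strip {c : ENNReal}
    (hc : (volume : Measure ℍ[ℝ]) = c • Measure.map par volume) (hct : c ≠ ⊤)
    {ψ : ℝ → ENNReal} (hψ : Measurable ψ) {F : Pt → ENNReal} (hF : Measurable F) :
    ∫⁻ p, strip ψ p * F p ∂hyp = c *
      ∫⁻ r in Set.Ioi (0 : ℝ), ψ r * cellInt 1 F r * ENNReal.ofReal ((r ^ 5)⁻¹) := by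
  have hd : Measurable fun p : Pt => ENNReal.ofReal ((p.2 ^ 5)⁻¹) :=
    ENNReal.measurable_ofReal.comp (by fun_prop)
  have hη := measurable_strip hψ
  have hUH : UH = Set.univ ×ˢ Set.Ioi (0 : ℝ) := by
    ext p
    simp [UH]
  have hm : Measurable fun p : Pt => strip ψ p * F p := hη.mul hF
  have hm2 : Measurable fun p : Pt => ENNReal.ofReal ((p.2 ^ 5)⁻¹) * (strip ψ p * F p) :=
    hd.mul hm
  have e0 : ∫⁻ p, strip ψ p * F p ∂hyp = ∫⁻ r in Set.Ioi (0 : ℝ), ∫⁻ z : ℍ[ℝ],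
      (fun p : Pt => ENNReal.ofReal ((p.2 ^ 5)⁻¹) * (strip ψ p * F p)) (z, r) := by
    unfold hyp
    rw [lintegral_withDensity_eq_lintegral_mul _ hd hm, hUH, Measure.volume_eq_prod,
      ← Measure.prod_restrict, Measure.restrict_univ]
    exact lintegral_prod_symm' _ hm2
  rw [e0]
  have hcell : ∀ r ∈ Set.Ioi (0 : ℝ), ∫⁻ z : ℍ[ℝ], (fun p : Pt => ENNReal.ofReal ((p.2 ^ 5)⁻¹) *
      (strip ψ p * F p)) (z, r) = c * (ψ r * cellInt 1 F r *
        ENNReal.ofReal ((r ^ 5)⁻¹)) := by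
    intro r hr
    have hFr : Measurable fun z : ℍ[ℝ] => F (z, r) := hF.comp (by fun_prop)
    have e1 : ∫⁻ z : ℍ[ℝ], (fun p : Pt => ENNReal.ofReal ((p.2 ^ 5)⁻¹) *
        (strip ψ p * F p)) (z, r) =
        ∫⁻ z in cellSet, ENNReal.ofReal ((r ^ 5)⁻¹) * (ψ r * F (z, r)) := by
      rw [← lintegral_indicator measurableSet_cellSet]
      refine lintegral_congr fun z => ?_
      by_cases hz : z ∈ cellSet
      · rw [Set.indicator_of_mem hz]
        unfold strip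
        simp only
        rw [Set.indicator_of_mem (show (z, r) ∈ cellSet ×ˢ Set.Ioi (0 : ℝ) from ⟨hz, hr⟩)]
      · rw [Set.indicator_of_notMem hz]
        unfold strip
        simp only
        rw [Set.indicator_of_notMem (show (z, r) ∉ cellSet ×ˢ Set.Ioi (0 : ℝ) from
          fun h => hz h.1)]
        simp
    have e2 : cellInt 1 F r = ∫⁻ x in Set.Icc (0 : Fin 4 → ℝ) 1, F (par x, r) := by
      unfold cellInt
      simp only [one_mul]
    rw [e1, lintegral_const_mul _ (hFr.const_mul _), lintegral_const_mul _ hFr,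
      lintegral_cell hc _ hFr, e2]
    ring
  rw [← lintegral_const_mul']
  · exact setLIntegral_congr_fun measurableSet_Ioi hcell
  · exact hct

theorem strip_unfold_aux (hA : AlgHyp) {R : Subring ℍ[ℝ]} (hR : NiceRing R) (hL : IsLat R)
    {κ : Pt → ℝ} {C a : ℝ} (hK : Kap R κ C a) :
    ∃ K : ENNReal, K ≠ 0 ∧ K ≠ ⊤ ∧ ∀ (ψ : ℝ → ENNReal) (F : Pt → ENNReal), Measurable ψ →
      Measurable F → (∀ γ ∈ Gam R, ∀ p ∈ UH, F (act γ p) = F p) →
      ∫⁻ r in Set.Ioi (0 : ℝ), ψ r * cellInt 1 F r * ENNReal.ofReal ((r ^ 5)⁻¹)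
        = K * ∫⁻ p, ENNReal.ofReal (κ p) * (∑' v : Prim R, ψ (1 / uval v p)) * F p ∂hyp := by
  obtain ⟨c, hc0, hct, hc⟩ := exists_const
  have hfin : Finite (UE R) := finite_UE hR
  have hN0 : (Nat.card (UE R) : ENNReal) ≠ 0 := by
    have : Nonempty (UE R) := ⟨⟨1, one_mem_UE R⟩⟩
    exact_mod_cast Nat.card_pos.ne'
  have hNt : (Nat.card (UE R) : ENNReal) ≠ ⊤ := ENNReal.natCast_ne_top _
  refine ⟨c⁻¹ * Nat.card (UE R), mul_ne_zero (ENNReal.inv_ne_zero.2 hct) hN0,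
    ENNReal.mul_ne_top (ENNReal.inv_ne_top.2 hc0) hNt, ?_⟩
  intro ψ F hψ hF hinv
  have h1 := unfold_aux hA hR hK (strip ψ) F (measurable_strip hψ) hF hinv
  have h2 : ∫⁻ p, ENNReal.ofReal (κ p) * (∑' γ : Gam R, strip ψ (act γ p)) * F p ∂hyp =
      Nat.card (UE R) *
        ∫⁻ p, ENNReal.ofReal (κ p) * (∑' v : Prim R, ψ (1 / uval v p)) * F p ∂hyp := by
    rw [← lintegral_const_mul' _ _ hNt]
    refine lintegral_congr_ae ?_
    filter_upwards [ae_UH] with p hp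
    rw [sum_strip hA hR hL ψ hp]
    ring
  rw [lintegral_strip hc hct hψ hF, h2] at h1
  rw [mul_assoc, ← h1, ← mul_assoc, ENNReal.inv_mul_cancel hc0 hct, one_mul]

end Pool.Agent.Helper50.Ram5
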