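import Pool.Agent.Helper50.Ram5.U2b
import Pool.Agent.Helper13.Ram5.Alg
import Pool.Agent.Helper68.Ram5.Diff

set_option autoImplicit false

/-!
# Module U2 : unfolding
-/

namespace Pool.Agent.Helper50.Ram5

open MeasureTheory Topology
open scoped Quaternion
open Pool.Agent.Helper10.Ram5 hiding trans

theorem algHyp : AlgHyp where
  act_mem := fun g _ hp => Pool.Agent.Helper13.Ram5.act_mem g hp
  act_mul := fun g h hh _ hp => Pool.Agent.Helper13.Ram5.act_mul g h hh hp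
  act_one := Pool.Agent.Helper13.Ram5.act_one
  meas := Pool.Agent.Helper68.Ram5.measurable_act
  mp := Pool.Agent.Helper68.Ram5.measurePreserving_act

theorem unfold {R : Subring ℍ[ℝ]} (hR : NiceRing R) {κ : Pt → ℝ} {C a : ℝ} (hK : Kap R κ C a)
    (η F : Pt → ENNReal) (hη : Measurable η) (hF : Measurable F)
    (hinv : ∀ γ ∈ Gam R, ∀ p ∈ UH, F (act γ p) = F p) :
    ∫⁻ p, η p * F p ∂hyp
      = ∫⁻ p, ENNReal.ofReal (κ p) * (∑' γ : Gam R, η (act γ p)) * F p ∂hyp :=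
  unfold_aux algHyp hR hK η F hη hF hinv

/-- strip unfolding (cusp cell), with an unspecified constant `K` -/
theorem strip_unfold {R : Subring ℍ[ℝ]} (hR : NiceRing R) (hτ : IsLat R)
    {κ : Pt → ℝ} {C a : ℝ} (hK : Kap R κ C a) :
    ∃ K : ENNReal, K ≠ 0 ∧ K ≠ ⊤ ∧ ∀ (ψ : ℝ → ENNReal) (F : Pt → ENNReal), Measurable ψ →
      Measurable F → (∀ γ ∈ Gam R, ∀ p ∈ UH, F (act γ p) = F p) →
      ∫⁻ r in Set.Ioi (0 : ℝ), ψ r * cellInt 1 F r * ENNReal.ofReal ((r ^ 5)⁻¹)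
        = K * ∫⁻ p, ENNReal.ofReal (κ p) * (∑' v : Prim R, ψ (1 / uval v p)) * F p ∂hyp :=
  strip_unfold_aux algHyp hR hτ hK

end Pool.Agent.Helper50.Ram5
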