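import Pool.Agent.Helper10.Ram5.Lib

set_option autoImplicit false

/-!
# Unfolding with a partition of unity, hyperbolic 5-space
-/

namespace Pool.Agent.Helper50.Ram5

open MeasureTheory Topology
open scoped Quaternion
open Pool.Agent.Helper10.Ram5 hiding trans

/-- the algebra of the action used in the unfolding -/
structure AlgHyp : Prop where
  act_mem : ∀ (g : GL2H) {p : Pt}, p ∈ UH → act g p ∈ UH
  act_mul : ∀ (g h : GL2H), nrd h.1 = 1 → ∀ {p : Pt}, p ∈ UH → act (g * h) p = act g (act h p)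
  act_one : ∀ p : Pt, act 1 p = p
  meas : ∀ g : GL2H, Measurable (act g)
  mp : ∀ g : GL2H, nrd g.1 = 1 → MeasurePreserving (act g) hyp hyp

theorem measurableSet_UH : MeasurableSet UH :=
  measurableSet_lt measurable_const measurable_snd

theorem ae_UH : ∀ᵐ p ∂hyp, p ∈ UH :=
  (withDensity_absolutelyContinuous _ _).ae_le (ae_restrict_mem measurableSet_UH)

theorem sum_kap {R : Subring ℍ[ℝ]} {κ : Pt → ℝ} {C a : ℝ} (hK : Kap R κ C a) {p : Pt}
    (hp : p ∈ UH) : ∑' γ : Gam R, ENNReal.ofReal (κ (act γ p)) = 1 := by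
  have h := hK.sum p hp
  rw [← ENNReal.ofReal_tsum_of_nonneg (fun γ => hK.nonneg _) h.summable, h.tsum_eq,
    ENNReal.ofReal_one]

/-- membership in `Gam R` -/
theorem mem_Gam {R : Subring ℍ[ℝ]} {g : GL2H} :
    g ∈ Gam R ↔ (∀ i j, g.1 i j ∈ R) ∧ ∀ i j, (g⁻¹).1 i j ∈ R := by
  constructor
  · rintro ⟨h, rfl⟩
    refine ⟨fun i j => (h.1 i j).2, fun i j => ?_⟩
    rw [← map_inv]
    exact ((h⁻¹).1 i j).2
  · rintro ⟨h1, h2⟩
    let M : Matrix (Fin 2) (Fin 2) R := Matrix.of fun i j => ⟨g.1 i j, h1 i j⟩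
    let N : Matrix (Fin 2) (Fin 2) R := Matrix.of fun i j => ⟨(g⁻¹).1 i j, h2 i j⟩
    have hMN : M * N = 1 := by
      refine Matrix.ext fun i j => Subtype.ext ?_
      have e := congrFun (congrFun g.mul_inv i) j
      rw [Matrix.mul_apply] at e
      rw [Matrix.mul_apply]
      rw [show (((∑ k, M i k * N k j : R)) : ℍ[ℝ]) = ∑ k, g.1 i k * (g⁻¹).1 k j by
        rw [Fin.sum_univ_two, Fin.sum_univ_two]; rfl]
      rw [e]
      by_cases hij : i = j
      · subst hij; simp
      · simp [hij]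
    have hNM : N * M = 1 := by
      refine Matrix.ext fun i j => Subtype.ext ?_
      have e := congrFun (congrFun g.inv_mul i) j
      rw [Matrix.mul_apply] at e
      rw [Matrix.mul_apply]
      rw [show (((∑ k, N i k * M k j : R)) : ℍ[ℝ]) = ∑ k, (g⁻¹).1 i k * g.1 k j by
        rw [Fin.sum_univ_two, Fin.sum_univ_two]; rfl]
      rw [e]
      by_cases hij : i = j
      · subst hij; simp
      · simp [hij]
    refine ⟨⟨M, N, hMN, hNM⟩, ?_⟩
    exact Units.ext (Matrix.ext fun i j => rfl)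

theorem countable_ring {R : Subring ℍ[ℝ]} (hR : NiceRing R) : Countable R := by
  have h : (R : Set ℍ[ℝ]) ⊆ ⋃ n : ℕ, {x : ℍ[ℝ] | x ∈ R ∧ ‖x‖ ≤ n} := by
    intro x hx
    obtain ⟨n, hn⟩ := exists_nat_ge ‖x‖
    exact Set.mem_iUnion.2 ⟨n, hx, hn⟩
  have h2 : (R : Set ℍ[ℝ]).Countable :=
    (Set.countable_iUnion fun n : ℕ => (hR.fin n).countable).mono h
  exact h2.to_subtype

theorem countable_Gam' {R : Subring ℍ[ℝ]} (hR : NiceRing R) : Countable (Gam R) := by
  have := countable_ring hR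
  have h : Function.Injective (fun (γ : Gam R) (i j : Fin 2) =>
      (⟨(γ : GL2H).1 i j, (mem_Gam.1 γ.2).1 i j⟩ : R)) := by
    intro γ γ' h
    refine Subtype.ext (Units.ext (Matrix.ext fun i j => ?_))
    have := congrFun (congrFun h i) j
    exact congrArg Subtype.val this
  exact h.countable

theorem unfold_aux (hA : AlgHyp) {R : Subring ℍ[ℝ]} (hR : NiceRing R)
    {κ : Pt → ℝ} {C a : ℝ} (hK : Kap R κ C a)
    (η F : Pt → ENNReal) (hη : Measurable η) (hF : Measurable F)
    (hinv : ∀ γ ∈ Gam R, ∀ p ∈ UH, F (act γ p) = F p) :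
    ∫⁻ p, η p * F p ∂hyp
      = ∫⁻ p, ENNReal.ofReal (κ p) * (∑' γ : Gam R, η (act γ p)) * F p ∂hyp := by
  have hcount := countable_Gam' hR
  have hact := hA.meas
  have hκ : Measurable (fun p => ENNReal.ofReal (κ p)) :=
    ENNReal.measurable_ofReal.comp hK.smooth.continuous.measurable
  calc ∫⁻ p, η p * F p ∂hyp
      = ∫⁻ p, ∑' γ : Gam R, ENNReal.ofReal (κ (act γ p)) * η p * F p ∂hyp := by
        refine lintegral_congr_ae ?_
        filter_upwards [ae_UH] with p hp
        simp only [mul_assoc]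
        rw [ENNReal.tsum_mul_right, sum_kap hK hp, one_mul]
    _ = ∑' γ : Gam R, ∫⁻ p, ENNReal.ofReal (κ (act γ p)) * η p * F p ∂hyp := by
        refine lintegral_tsum fun γ => ?_
        exact (((hκ.comp (hact γ)).mul hη).mul hF).aemeasurable
    _ = ∑' γ : Gam R, ∫⁻ p, ENNReal.ofReal (κ p) * η (act (γ⁻¹ : Gam R) p) * F p ∂hyp := by
        refine tsum_congr fun γ => ?_
        have hm : Measurable (fun p => ENNReal.ofReal (κ (act (γ : GL2H) p)) * η p * F p) :=
          ((hκ.comp (hact γ)).mul hη).mul hF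
        rw [← (hA.mp ((γ⁻¹ : Gam R) : GL2H) (hR.nrd_one _ (γ⁻¹ : Gam R).2)).lintegral_comp hm]
        refine lintegral_congr_ae ?_
        filter_upwards [ae_UH] with p hp
        show ENNReal.ofReal (κ (act γ (act ((γ⁻¹ : Gam R) : GL2H) p)))
          * η (act ((γ⁻¹ : Gam R) : GL2H) p) * F (act ((γ⁻¹ : Gam R) : GL2H) p) = _
        have h1 : act (γ : GL2H) (act ((γ⁻¹ : Gam R) : GL2H) p) = p := by
          rw [← hA.act_mul _ _ (hR.nrd_one _ (γ⁻¹ : Gam R).2) hp, ← Subgroup.coe_mul,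
            mul_inv_cancel, Subgroup.coe_one, hA.act_one]
        rw [h1, hinv _ (γ⁻¹ : Gam R).2 p hp]
    _ = ∑' γ : Gam R, ∫⁻ p, ENNReal.ofReal (κ p) * η (act γ p) * F p ∂hyp :=
        (Equiv.inv (Gam R)).tsum_eq
          (fun γ : Gam R => ∫⁻ p, ENNReal.ofReal (κ p) * η (act (γ : GL2H) p) * F p ∂hyp)
    _ = ∫⁻ p, ∑' γ : Gam R, ENNReal.ofReal (κ p) * η (act γ p) * F p ∂hyp := by
        refine (lintegral_tsum fun γ => ?_).symm
        exact ((hκ.mul (hη.comp (hact γ))).mul hF).aemeasurable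
    _ = _ := by
        refine lintegral_congr fun p => ?_
        rw [ENNReal.tsum_mul_right, ENNReal.tsum_mul_left]

/-! ## The cell -/

/-- coordinates with respect to the basis `1, i, j, (1 + i + j + k) / 2` -/
noncomputable def crd (z : ℍ[ℝ]) : Fin 4 → ℝ :=
  ![z.re - z.imK, z.imI - z.imK, z.imJ - z.imK, 2 * z.imK]

theorem crd_par (x : Fin 4 → ℝ) : crd (par x) = x := by
  ext i
  fin_cases i <;> simp [crd, par]
  ring

theorem par_crd (z : ℍ[ℝ]) : par (crd z) = z := by
  ext <;> simp [crd, par]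

/-- `par` as a continuous linear equivalence -/
noncomputable def parL : (Fin 4 → ℝ) ≃L[ℝ] ℍ[ℝ] :=
  LinearEquiv.toContinuousLinearEquiv
    { toFun := par
      map_add' := fun x y => by
        ext <;> simp [par] <;> ring
      map_smul' := fun c x => by
        ext <;> simp [par] <;> ring
      invFun := crd
      left_inv := crd_par
      right_inv := par_crd }

theorem parL_apply (x : Fin 4 → ℝ) : parL x = par x := rfl

theorem parL_symm_apply (z : ℍ[ℝ]) : parL.symm z = crd z := rfl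

theorem measurable_par : Measurable par := parL.continuous.measurable

theorem measurable_crd : Measurable crd := parL.symm.continuous.measurable

theorem crd_add (z w : ℍ[ℝ]) : crd (z + w) = crd z + crd w := parL.symm.map_add z w

/-- the half-open unit cube -/
def cube : Set (Fin 4 → ℝ) := Set.univ.pi fun _ => Set.Ico (0 : ℝ) 1

theorem measurableSet_cube : MeasurableSet cube :=
  MeasurableSet.univ_pi fun _ => measurableSet_Ico

/-- the half-open unit cell -/
def cellSet : Set ℍ[ℝ] := crd ⁻¹' cube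

theorem measurableSet_cellSet : MeasurableSet cellSet := measurable_crd measurableSet_cube

theorem exists_mem_cell {R : Subring ℍ[ℝ]} (hR : IsLat R) (z : ℍ[ℝ]) :
    ∃ x ∈ R, z + x ∈ cellSet := by
  refine ⟨par fun i => ((-⌊crd z i⌋ : ℤ) : ℝ), (hR _).2 ⟨fun i => -⌊crd z i⌋, rfl⟩, ?_⟩
  intro i _
  rw [crd_add, crd_par, Pi.add_apply]
  push_cast
  have h1 := Int.fract_nonneg (crd z i)
  have h2 := Int.fract_lt_one (crd z i)
  unfold Int.fract at h1 h2
  exact ⟨by linarith, by linarith⟩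

theorem cell_unique {R : Subring ℍ[ℝ]} (hR : IsLat R) {z x : ℍ[ℝ]} (hx : x ∈ R)
    (h1 : z ∈ cellSet) (h2 : z + x ∈ cellSet) : x = 0 := by
  obtain ⟨n, rfl⟩ := (hR x).1 hx
  have key : ∀ i, n i = 0 := by
    intro i
    have e1 := h1 i (Set.mem_univ i)
    have e2 := h2 i (Set.mem_univ i)
    rw [crd_add, crd_par, Pi.add_apply] at e2
    have a1 := e1.1
    have a2 := e1.2
    have a3 := e2.1
    have a4 := e2.2
    have f1 : (-1 : ℝ) < n i := by linarith
    have f2 : (n i : ℝ) < 1 := by linarith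
    have f3 : (-1 : ℤ) < n i := by exact_mod_cast f1
    have f4 : n i < (1 : ℤ) := by exact_mod_cast f2
    omega
  have : (fun i => (n i : ℝ)) = 0 := by
    ext i
    simp [key i]
  rw [this]
  ext <;> simp [par]

/-- Haar constant of the parametrisation -/
theorem exists_const : ∃ c : ENNReal, c ≠ 0 ∧ c ≠ ⊤ ∧
    (volume : Measure ℍ[ℝ]) = c • Measure.map par volume := by
  have h1 : (Measure.map (⇑parL) (volume : Measure (Fin 4 → ℝ))).IsAddHaarMeasure :=
    ContinuousLinearEquiv.isAddHaarMeasure_map parL volume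
  have h2 := Measure.isAddLeftInvariant_eq_smul (volume : Measure ℍ[ℝ])
    (Measure.map (⇑parL) (volume : Measure (Fin 4 → ℝ)))
  have h3 := Measure.addHaarScalarFactor_pos_of_isAddHaarMeasure (volume : Measure ℍ[ℝ])
    (Measure.map (⇑parL) (volume : Measure (Fin 4 → ℝ)))
  refine ⟨Measure.addHaarScalarFactor (volume : Measure ℍ[ℝ])
    (Measure.map (⇑parL) (volume : Measure (Fin 4 → ℝ))), ?_, ENNReal.coe_ne_top, h2⟩
  exact_mod_cast h3.ne'

/-- integration over the half-open cell -/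
theorem lintegral_cell {c : ENNReal} (hc : (volume : Measure ℍ[ℝ]) = c • Measure.map par volume)
    (G : ℍ[ℝ] → ENNReal) (hG : Measurable G) :
    ∫⁻ z in cellSet, G z = c * ∫⁻ x in Set.Icc (0 : Fin 4 → ℝ) 1, G (par x) := by
  rw [hc, Measure.restrict_smul, lintegral_smul_measure,
    Measure.restrict_map measurable_par measurableSet_cellSet, lintegral_map hG measurable_par,
    smul_eq_mul]
  congr 1
  have hpre : par ⁻¹' cellSet = cube := by
    ext x
    show crd (par x) ∈ cube ↔ x ∈ cube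
    rw [crd_par]
  have hae : cube =ᵐ[volume] Set.Icc (0 : Fin 4 → ℝ) 1 := by
    have := Measure.univ_pi_Ico_ae_eq_Icc (μ := fun _ : Fin 4 => (volume : Measure ℝ))
      (f := (0 : Fin 4 → ℝ)) (g := (1 : Fin 4 → ℝ))
    exact this
  rw [hpre, Measure.restrict_congr_set hae]

end Pool.Agent.Helper50.Ram5
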